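import Mathlib

/-!
Piece (UP) of helper54's FF: an uncertainty principle for Dirichlet characters.
-/

set_option autoImplicit false

namespace Pool.Agent.T9h65.FF

open Finset

theorem ortho (Q : ℕ) [NeZero Q] (χ ψ : DirichletCharacter ℂ Q) :
    ∑ a : ZMod Q, χ a * star (ψ a) = if χ = ψ then (Q.totient : ℂ) else 0 := by
  classical
  have e : ∀ a : ZMod Q, χ a * star (ψ a) = (χ * ψ⁻¹) a := by
    intro a
    rw [MulChar.star_apply', MulChar.mul_apply]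
  rw [Finset.sum_congr rfl fun a _ => e a]
  split_ifs with h
  · rw [h, mul_inv_cancel, MulChar.sum_one_eq_card_units, ZMod.card_units_eq_totient]
  · refine MulChar.sum_eq_zero_of_ne_one fun h1 => h ?_
    rwa [mul_inv_eq_one] at h1

theorem parseval (Q : ℕ) [NeZero Q] (B : Finset (DirichletCharacter ℂ Q))
    (g : DirichletCharacter ℂ Q → ℂ) :
    ∑ a : ZMod Q, ‖∑ χ ∈ B, g χ * χ a‖ ^ 2 = (Q.totient : ℝ) * ∑ χ ∈ B, ‖g χ‖ ^ 2 := by
  classical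
  have h : (∑ a : ZMod Q, ((‖∑ χ ∈ B, g χ * χ a‖ ^ 2 : ℝ) : ℂ)) =
      (Q.totient : ℂ) * ∑ χ ∈ B, ((‖g χ‖ ^ 2 : ℝ) : ℂ) := by
    have e1 : ∀ z : ℂ, ((‖z‖ ^ 2 : ℝ) : ℂ) = z * star z := by
      intro z
      rw [Complex.star_def, Complex.mul_conj, Complex.normSq_eq_norm_sq]
    have e2 : ∀ a : ZMod Q, ((‖∑ χ ∈ B, g χ * χ a‖ ^ 2 : ℝ) : ℂ) =
        ∑ χ ∈ B, ∑ ψ ∈ B, g χ * star (g ψ) * (χ a * star (ψ a)) := by
      intro a
      rw [e1, star_sum, Finset.sum_mul_sum]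
      refine Finset.sum_congr rfl fun χ _ => Finset.sum_congr rfl fun ψ _ => ?_
      rw [star_mul']
      ring
    rw [Finset.sum_congr rfl fun a _ => e2 a, Finset.sum_comm, Finset.mul_sum]
    refine Finset.sum_congr rfl fun χ hχ => ?_
    rw [Finset.sum_comm]
    have e3 : ∀ ψ ∈ B, ∑ a : ZMod Q, g χ * star (g ψ) * (χ a * star (ψ a)) =
        if χ = ψ then g χ * star (g ψ) * (Q.totient : ℂ) else 0 := by
      intro ψ _
      rw [← Finset.mul_sum, ortho, mul_ite, mul_zero]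
    rw [Finset.sum_congr rfl e3, Finset.sum_ite_eq, if_pos hχ, e1]
    ring
  exact_mod_cast h

theorem up0 (Q : ℕ) [NeZero Q] (B : Finset (DirichletCharacter ℂ Q))
    (g : DirichletCharacter ℂ Q → ℂ) (J : Finset (ZMod Q)ˣ) (hJ : J.card * B.card < Q.totient)
    (h0 : ∀ u : (ZMod Q)ˣ, u ∉ J → ∑ χ ∈ B, g χ * χ (u : ZMod Q) = 0) : ∀ χ ∈ B, g χ = 0 := by
  classical
  set G : ℝ := ∑ χ ∈ B, ‖g χ‖ ^ 2 with hG
  have hG0 : 0 ≤ G := Finset.sum_nonneg fun χ _ => by positivity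
  have hp := parseval Q B g
  have hnu : ∀ a : ZMod Q, a ∉ J.image (fun u : (ZMod Q)ˣ => (u : ZMod Q)) →
      ∑ χ ∈ B, g χ * χ a = 0 := by
    intro a ha
    by_cases hu : IsUnit a
    · obtain ⟨u, rfl⟩ := hu
      refine h0 u fun hm => ha (Finset.mem_image_of_mem _ hm)
    · refine Finset.sum_eq_zero fun χ _ => ?_
      rw [MulChar.map_nonunit χ hu, mul_zero]
  have hs : ∑ a : ZMod Q, ‖∑ χ ∈ B, g χ * χ a‖ ^ 2 =
      ∑ u ∈ J, ‖∑ χ ∈ B, g χ * χ (u : ZMod Q)‖ ^ 2 := by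
    rw [← Finset.sum_subset (Finset.subset_univ
      (J.image (fun u : (ZMod Q)ˣ => (u : ZMod Q)))) fun a _ ha => by
        rw [hnu a ha, norm_zero, zero_pow two_ne_zero]]
    exact Finset.sum_image fun u _ v _ huv => Units.ext huv
  have hcs : ∀ u ∈ J, ‖∑ χ ∈ B, g χ * χ (u : ZMod Q)‖ ^ 2 ≤ (B.card : ℝ) * G := by
    intro u _
    have h1 : ‖∑ χ ∈ B, g χ * χ (u : ZMod Q)‖ ≤ ∑ χ ∈ B, ‖g χ‖ := by
      refine (norm_sum_le _ _).trans (Finset.sum_le_sum fun χ _ => ?_)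
      rw [norm_mul]
      exact mul_le_of_le_one_right (norm_nonneg _) (DirichletCharacter.norm_le_one χ _)
    calc ‖∑ χ ∈ B, g χ * χ (u : ZMod Q)‖ ^ 2 ≤ (∑ χ ∈ B, ‖g χ‖) ^ 2 :=
          pow_le_pow_left₀ (norm_nonneg _) h1 2
      _ ≤ (B.card : ℝ) * G := sq_sum_le_card_mul_sum_sq
  have hle : (Q.totient : ℝ) * G ≤ (J.card : ℝ) * ((B.card : ℝ) * G) := by
    rw [← hp, hs, ← nsmul_eq_mul]
    exact Finset.sum_le_card_nsmul _ _ _ hcs
  have hlt : (J.card : ℝ) * (B.card : ℝ) < (Q.totient : ℝ) := by exact_mod_cast hJ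
  have hGz : G = 0 := by
    by_contra hne
    have hpos : 0 < G := lt_of_le_of_ne hG0 (Ne.symm hne)
    have := mul_lt_mul_of_pos_right hlt hpos
    linarith
  intro χ hχ
  have h2 := (Finset.sum_eq_zero_iff_of_nonneg fun χ _ => by positivity).1 hGz χ hχ
  have h3 : ‖g χ‖ = 0 := by
    have := pow_eq_zero_iff (two_ne_zero) |>.1 h2
    exact this
  exact norm_eq_zero.1 h3

end Pool.Agent.T9h65.FF
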