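import Pool.Agent.T9h54.FF.Spec4
import Pool.Agent.T9h65.FF.Up0

/-!
Piece (UP) of helper54's FF.
-/

set_option autoImplicit false

namespace Pool.Agent.T9h65.FF

theorem up : Pool.Agent.T9h54.FF.S_UP := fun Q _ B g J hJ h0 => up0 Q B g J hJ h0

end Pool.Agent.T9h65.FF
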